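import Mathlib
import Pool.Agent.Q90.ConjOps

/-!
# The projection monoid functor on AW*-algebras is not full
-/

set_option autoImplicit false

namespace Pool.Agent.Results.MP_dba3a1_an.ProjectionMonoid

/-- `e = Rann(S)` in the `*`-semigroup `M` with zero: `e` is a projection (`e = e* = e²`), and the
right annihilator `{y ∈ M : x y = 0 for all x ∈ S}` equals `e M`. -/
def IsRann {M : Type} [Mul M] [Zero M] [Star M] (S : Set M) (e : M) : Prop :=
  IsStarProjection e ∧ {y : M | ∀ x ∈ S, x * y = 0} = {y : M | ∃ z : M, y = e * z}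

/-- `M` has all annihilating projections: for every subset `S` there is a projection `e` with
`e = Rann(S)`. A C*-algebra with this property is an AW*-algebra. -/
def HasRann (M : Type) [Mul M] [Zero M] [Star M] : Prop := ∀ S : Set M, ∃ e : M, IsRann S e

/-- `φ` preserves annihilating projections: `φ(Rann(S)) = Rann(φ(S))` for all subsets `S`. -/
def PreservesRann {M N : Type} [Mul M] [Zero M] [Star M] [Mul N] [Zero N] [Star N]
    (φ : M → N) : Prop :=
  ∀ (S : Set M) (e : M), IsRann S e → IsRann (φ '' S) (φ e)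

/-- `φ` is a morphism of Baer *-semigroups: it preserves products, the involution and annihilating
projections. -/
def IsBaerMorphism {M N : Type} [Mul M] [Zero M] [Star M] [Mul N] [Zero N] [Star N]
    (φ : M → N) : Prop :=
  (∀ x y, φ (x * y) = φ x * φ y) ∧ (∀ x, φ (star x) = star (φ x)) ∧ PreservesRann φ

/-- `P(A)`: the multiplicative submonoid of `A` generated by the projections of `A`. -/
abbrev P (A : Type) [CStarAlgebra A] : Type := Submonoid.closure {p : A | IsStarProjection p}

instance (A : Type) [CStarAlgebra A] : Zero (P A) :=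
  ⟨⟨0, Submonoid.subset_closure (IsStarProjection.zero A)⟩⟩

theorem star_mem {A : Type} [CStarAlgebra A] {x : A}
    (hx : x ∈ Submonoid.closure {p : A | IsStarProjection p}) :
    star x ∈ Submonoid.closure {p : A | IsStarProjection p} := by
  induction hx using Submonoid.closure_induction with
  | mem x hx =>
    rw [hx.isSelfAdjoint.star_eq]
    exact Submonoid.subset_closure hx
  | one =>
    rw [star_one]
    exact Submonoid.one_mem _
  | mul x y _ _ hx hy =>
    rw [star_mul]
    exact Submonoid.mul_mem _ hy hx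

/-- The involution of `P(A)`, restricted from `A`. -/
instance (A : Type) [CStarAlgebra A] : Star (P A) := ⟨fun x => ⟨star x.1, star_mem x.2⟩⟩

/-- The functor `P` is full: for all AW*-algebras `A`, `B`, every morphism of Baer *-semigroups
`P(A) → P(B)` is the restriction of a morphism of AW*-algebras `A → B` (a unital `*`-homomorphism
that preserves annihilating projections). -/
def ProjectionFunctorFull : Prop :=
  ∀ (A B : Type) [CStarAlgebra A] [CStarAlgebra B], HasRann A → HasRann B →
    ∀ φ : P A → P B, IsBaerMorphism φ →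
      ∃ f : A →⋆ₐ[ℂ] B, PreservesRann f ∧ ∀ x : P A, f (x : A) = (φ x : B)

/-- `A` is an AW*-algebra, and some Baer *-semigroup automorphism of `P(A)` is not the restriction
of any complex-linear map `A → A`. -/
def HasNonlinearAutomorphism (A : Type) [CStarAlgebra A] : Prop :=
  HasRann A ∧ ∃ φ : P A → P A, Function.Bijective φ ∧ IsBaerMorphism φ ∧
    ¬ ∃ f : A →ₗ[ℂ] A, ∀ x : P A, f (x : A) = (φ x : A)

/-- The algebra of bounded operators on a Hilbert space is an AW*-algebra. -/
theorem hasRann_BOps (E : Type) [NormedAddCommGroup E] [InnerProductSpace ℂ E] [CompleteSpace E] :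
    HasRann (E →L[ℂ] E) := by
  intro S
  let V : Submodule ℂ E := ⨅ x ∈ S, (x : E →L[ℂ] E).ker
  have hV : ∀ v, v ∈ V ↔ ∀ x ∈ S, x v = 0 := by
    intro v
    simp [V, Submodule.mem_iInf]
  have hVc : IsClosed (V : Set E) := by
    have h : (V : Set E) = ⋂ x ∈ S, {v | x v = 0} := by
      ext v
      simp only [SetLike.mem_coe, Set.mem_iInter]
      exact hV v
    rw [h]
    exact isClosed_biInter fun x _ => isClosed_eq x.continuous continuous_const
  have : CompleteSpace V := hVc.completeSpace_coe
  refine ⟨V.starProjection, isStarProjection_starProjection, ?_⟩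
  ext y
  constructor
  · intro hy
    refine ⟨y, ?_⟩
    ext1 v
    change y v = V.starProjection (y v)
    symm
    rw [Submodule.starProjection_eq_self_iff, hV]
    intro x hx
    have := hy x hx
    exact DFunLike.congr_fun this v
  · rintro ⟨z, rfl⟩ x hx
    ext1 v
    change x (V.starProjection (z v)) = 0
    exact (hV _).1 (Submodule.starProjection_apply_mem V (z v)) x hx

/-- An involutive multiplicative `*`-preserving bijection preserves annihilating projections. -/
theorem preservesRann_of_involutive {M : Type} [Mul M] [Zero M] [Star M] (φ : M → M)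
    (h0 : φ 0 = 0) (hm : ∀ x y, φ (x * y) = φ x * φ y) (hs : ∀ x, φ (star x) = star (φ x))
    (hi : ∀ x, φ (φ x) = x) : PreservesRann φ := by
  intro S e ⟨he, hS⟩
  refine ⟨⟨?_, ?_⟩, ?_⟩
  · change φ e * φ e = φ e
    rw [← hm, he.isIdempotentElem]
  · change star (φ e) = φ e
    rw [← hs, he.isSelfAdjoint]
  · ext y
    constructor
    · intro hy
      have h1 : φ y ∈ {y : M | ∀ x ∈ S, x * y = 0} := by
        intro x hx
        have h2 := hy (φ x) ⟨x, hx, rfl⟩
        have h3 := congrArg φ h2
        rwa [hm, hi, h0] at h3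
      rw [hS] at h1
      obtain ⟨z, hz⟩ := h1
      refine ⟨φ z, ?_⟩
      rw [← hm, ← hz, hi]
    · rintro ⟨z, rfl⟩ _ ⟨x, hx, rfl⟩
      have h1 : e * φ z ∈ {y : M | ∃ z : M, y = e * z} := ⟨φ z, rfl⟩
      rw [← hS] at h1
      have h2 := congrArg φ (h1 x hx)
      rwa [hm, hm, hi, h0] at h2

variable {E : Type} [NormedAddCommGroup E] [InnerProductSpace ℂ E] [CompleteSpace E]

open Q90.ConjOps in
theorem cj_mem (C : Conj E) {x : E →L[ℂ] E}
    (hx : x ∈ Submonoid.closure {p : E →L[ℂ] E | IsStarProjection p}) :
    cj C x ∈ Submonoid.closure {p : E →L[ℂ] E | IsStarProjection p} := by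
  induction hx using Submonoid.closure_induction with
  | mem x hx => exact Submonoid.subset_closure (cj_isStarProjection C hx)
  | one =>
    rw [cj_one]
    exact Submonoid.one_mem _
  | mul x y _ _ hx hy =>
    rw [cj_mul]
    exact Submonoid.mul_mem _ hx hy

open Q90.ConjOps in
theorem general (hE : 1 < Module.rank ℂ E) :
    ∃ φ : P (E →L[ℂ] E) → P (E →L[ℂ] E), Function.Bijective φ ∧ IsBaerMorphism φ ∧
      ¬ ∃ f : (E →L[ℂ] E) →ₗ[ℂ] (E →L[ℂ] E), ∀ x : P (E →L[ℂ] E),
        f (x : E →L[ℂ] E) = (φ x : E →L[ℂ] E) := by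
  obtain ⟨C, p, q, r, l, hp, hq, hr, hp0, hcp, hx, hl⟩ := exists_conj hE
  let φ : P (E →L[ℂ] E) → P (E →L[ℂ] E) := fun x => ⟨cj C x.1, cj_mem C x.2⟩
  have hi : ∀ x, φ (φ x) = x := fun x => Subtype.ext (cj_cj C x.1)
  refine ⟨φ, Function.Involutive.bijective hi, ⟨fun x y => Subtype.ext (cj_mul C _ _),
    fun x => Subtype.ext (cj_star C _), ?_⟩, ?_⟩
  · exact preservesRann_of_involutive φ (Subtype.ext (cj_zero C))
      (fun x y => Subtype.ext (cj_mul C _ _)) (fun x => Subtype.ext (cj_star C _)) hi
  · rintro ⟨f, hf⟩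
    have hpm : p ∈ Submonoid.closure {p : E →L[ℂ] E | IsStarProjection p} :=
      Submonoid.subset_closure hp
    have hxm : p * q * r * p ∈ Submonoid.closure {p : E →L[ℂ] E | IsStarProjection p} :=
      Submonoid.mul_mem _ (Submonoid.mul_mem _ (Submonoid.mul_mem _ hpm
        (Submonoid.subset_closure hq)) (Submonoid.subset_closure hr)) hpm
    have h1 : f p = p := (hf ⟨p, hpm⟩).trans hcp
    have h2 : f (p * q * r * p) = cj C (p * q * r * p) := hf ⟨_, hxm⟩
    rw [hx, map_smul, h1, cj_smul, hcp] at h2
    have h3 : (l - star l) • p = 0 := by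
      rw [sub_smul, h2, sub_self]
    rcases smul_eq_zero.1 h3 with h4 | h4
    · exact hl (sub_eq_zero.1 h4).symm
    · exact hp0 h4

/-- **The functor `P` from AW*-algebras to Baer *-semigroups is not full** (negative answer to Q1).

(1) There are AW*-algebras `A`, `B` and a morphism of Baer *-semigroups `P(A) → P(B)` that is not
the restriction of any morphism of AW*-algebras `A → B`.

(2) In fact, for every complex Hilbert space `E` of dimension at least two, the AW*-algebra
`A = B(E)` of all bounded operators on `E` (for example `A = M_2(ℂ)`) has a Baer *-semigroup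
automorphism of `P(A)` that is not the restriction of any complex-linear map `A → A`. -/
theorem result :
    ¬ ProjectionFunctorFull ∧
    ∀ (E : Type) [NormedAddCommGroup E] [InnerProductSpace ℂ E] [CompleteSpace E],
      1 < Module.rank ℂ E → HasNonlinearAutomorphism (E →L[ℂ] E) := by
  refine ⟨fun h => ?_, fun E _ _ _ hE => ⟨hasRann_BOps E, general hE⟩⟩
  have hE : 1 < Module.rank ℂ (EuclideanSpace ℂ (Fin 2)) := by
    rw [← Module.finrank_eq_rank, finrank_euclideanSpace_fin]
    norm_num
  obtain ⟨φ, -, hφ, hn⟩ := general hE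
  obtain ⟨f, -, hf⟩ := h _ _ (hasRann_BOps (EuclideanSpace ℂ (Fin 2)))
    (hasRann_BOps (EuclideanSpace ℂ (Fin 2))) φ hφ
  exact hn ⟨f.toAlgHom.toLinearMap, hf⟩

end Pool.Agent.Results.MP_dba3a1_an.ProjectionMonoid
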